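import Pool.Agent.Q198.Qrac.Main

/-! # MP_49fc99_mp: no simultaneous per-bit decoding of quantum random access codes

The code: the strings `e_i` with a single one are sent to the pure states `a |e_i⟩ + τ |g⟩` with one
common vector `|g⟩`, all other strings `x` to the basis states `|x⟩`. Every single bit can be found
with error at most `τ ^ 4`, but every POVM which produces all bits has an error of order `τ ^ 2` for
some string and some bit, if the number of bits is large. -/

namespace Pool.Agent.Results.MP_49fc99_mp.NoSimultaneousDecoding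

open Q198.Qrac

/-- For every constant `K` there are `n`, `m`, `p ∈ (1/2, 1)` and an `(n, m, p)`-QRAC `ρ` such that
every POVM with outcomes `y ∈ {0,1}^n` has, for some `x` and `i`, a probability of `y i ≠ x i` in the
state `ρ x` which is larger than `K (1 - p)` and larger than `2 p (1 - p)`. -/
theorem result (K : ℝ) : ∃ (n m : ℕ) (p : ℝ) (ρ : (Fin n → Bool) → QMat m),
    1 ≤ n ∧ 1 ≤ m ∧ 1 / 2 < p ∧ p < 1 ∧ IsQRAC n m p ρ ∧
    ∀ Q : (Fin n → Bool) → QMat m, IsPOVM Q →
      ∃ x i, K * (1 - p) < bitError Q (ρ x) x i ∧ 2 * p * (1 - p) < bitError Q (ρ x) x i :=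
  main K

end Pool.Agent.Results.MP_49fc99_mp.NoSimultaneousDecoding
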